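import Pool.Agent.H69.V2.Fin
import Pool.Agent.H69.VS.BrdB
import Pool.Agent.H69.VT.Num

/-!
Vanishing of the Koszul cohomology of Veronese embeddings in a range that is quadratic in `q`,
for all dimensions `n` and all `d ≥ 4`. In particular `O(d)` satisfies `N_k` with
`k = 2 d + 1` on every projective space; for `d = 4` and `q ≤ 2` this is the full range of
the question of Ein and Lazarsfeld.
-/

namespace Pool.Agent.Results.MP_fb19ec_ag.VeroneseRange

/-- For all `n`, `b`, `q`, `d`, `p` with `4 ≤ d`, `b + q + 1 ≤ d`, with `p` in the conjectured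
range, and with `2 p ≤ (d - 1) (q (q + 1) - 4) + 2 (q + 1) (q + b) + 2 (d - 4)` (and
`p ≤ 23` if `d = 4` and `q = 3`), the Koszul complex of degree-`d` forms in `n + 1` variables,
twisted by `O(b)`, is exact at `∧^p H^0(O(d)) ⊗ H^0(O(b + q d))`. -/
theorem result :
    ∀ (n b q d p : ℕ), 4 ≤ d → b + q + 1 ≤ d →
      (p : ℤ) ≤ (Nat.choose (d + q) q : ℤ) - (Nat.choose (d - b - 1) q : ℤ) - (q : ℤ) - 1 →
      2 * p ≤ (d - 1) * (q * (q + 1) - 4) + 2 * (q + 1) * (q + b) + 2 * (d - 4) →
      (d = 4 → q = 3 → p ≤ 23) →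
      ∀ x ∈ LinearMap.range
          (TensorProduct.map
            (ExteriorAlgebra.exteriorPower ℂ p (↥(Finset.Nat.antidiagonalTuple (n + 1) d) →₀ ℂ)).subtype
            (MvPolynomial.homogeneousSubmodule (Fin (n + 1)) ℂ (b + q * d)).subtype),
        (∑ e : ↥(Finset.Nat.antidiagonalTuple (n + 1) d),
            TensorProduct.map
              (CliffordAlgebra.contractLeft
                (Q := (0 : QuadraticForm ℂ (↥(Finset.Nat.antidiagonalTuple (n + 1) d) →₀ ℂ)))
                (Finsupp.lapply e))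
              (LinearMap.mulLeft ℂ
                (∏ j : Fin (n + 1), (MvPolynomial.X j : MvPolynomial (Fin (n + 1)) ℂ) ^ (e.1 j)))) x = 0 →
        ∃ y, (∑ e : ↥(Finset.Nat.antidiagonalTuple (n + 1) d),
            TensorProduct.map
              (CliffordAlgebra.contractLeft
                (Q := (0 : QuadraticForm ℂ (↥(Finset.Nat.antidiagonalTuple (n + 1) d) →₀ ℂ)))
                (Finsupp.lapply e))
              (LinearMap.mulLeft ℂ
                (∏ j : Fin (n + 1), (MvPolynomial.X j : MvPolynomial (Fin (n + 1)) ℂ) ^ (e.1 j)))) y = x := by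
  intro n b q d p h4 hd hp1 hp2 hex
  refine H69.VS.bridge n d (p := p) (N := b + q * d) ?_
  rcases Nat.lt_or_ge q 2 with hq | hq
  · obtain ⟨E, rfl⟩ : ∃ E, d = E + 1 := ⟨d - 1, by omega⟩
    have hq1 : q = 1 := by
      by_contra hne
      have hq0 : q = 0 := by omega
      subst hq0
      simp at hp1
      omega
    subst hq1
    intro β hβ
    rw [Nat.choose_one_right, Nat.choose_one_right] at hp1
    refine H69.VS.Van_Ng (E + 1) (b + 1 * (E + 1)) p ?_ β hβ
    have h1 := H69.VS.Ng_closed E 1 (1 + b) (by omega)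
    have h2 : 1 * E + (1 + b) = b + 1 * (E + 1) := by ring
    rw [h2] at h1
    omega
  · refine H69.VT.final_ofX (x := d - 4) (by omega) ?_ hd hq hex hp1 hp2
    intro t ht β hβ
    exact H69.V2.Tallc h4 t (by omega) β hβ

end Pool.Agent.Results.MP_fb19ec_ag.VeroneseRange
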